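import Mathlib

/-!
# MP_6cd9e0_an: entrywise positivity preservers on integer matrices, polynomial growth
-/

namespace Pool.Agent.Results.MP_6cd9e0_an.PolynomialGrowth

open Finset

/-- The real `n × n` matrix `M` is symmetric and positive semidefinite. -/
def PSD {n : ℕ} (M : Fin n → Fin n → ℝ) : Prop :=
  (∀ i j, M i j = M j i) ∧ ∀ x : Fin n → ℝ, 0 ≤ ∑ i, ∑ j, x i * M i j * x j

/-- `f` preserves positivity on integer matrices: `f[A]` is positive semidefinite for every
positive semidefinite matrix `A` with integer entries, of any size. -/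
def Preserves (f : ℤ → ℝ) : Prop :=
  ∀ (n : ℕ) (A : Fin n → Fin n → ℤ), PSD (fun i j => (A i j : ℝ)) → PSD (fun i j => f (A i j))

lemma Preserves.gen {f : ℤ → ℝ} (hf : Preserves f) {ι : Type} [Fintype ι] (A : ι → ι → ℤ)
    (hs : ∀ i j, A i j = A j i) (hp : ∀ x : ι → ℝ, 0 ≤ ∑ i, ∑ j, x i * (A i j : ℝ) * x j)
    (x : ι → ℝ) : 0 ≤ ∑ i, ∑ j, x i * f (A i j) * x j := by
  classical
  set e := Fintype.equivFin ι
  have h1 : PSD (fun i j => ((fun i j => A (e.symm i) (e.symm j)) i j : ℝ)) := by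
    refine ⟨fun i j => by simp only [hs], fun y => ?_⟩
    have := hp (y ∘ e)
    rw [← e.symm.sum_comp] at this
    simp_rw [← e.symm.sum_comp (fun j => _ * (A _ j : ℝ) * _)] at this
    simpa using this
  have h2 := (hf _ _ h1).2 (x ∘ e.symm)
  rw [← e.symm.sum_comp]
  simp_rw [← e.symm.sum_comp (fun j => _ * f (A _ j) * _)]
  simpa using h2

lemma Preserves.diff {f : ℤ → ℝ} (hf : Preserves f) : Preserves (fwdDiff 1 f) := by
  intro n A hA
  refine ⟨fun i j => ?_, fun u => ?_⟩
  · have h0 : (A i j : ℝ) = A j i := hA.1 i j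
    have : A i j = A j i := by exact_mod_cast h0
    simp only [this]
  · have hsymm : ∀ i j, A i j = A j i := fun i j => by
      have h0 : (A i j : ℝ) = A j i := hA.1 i j
      exact_mod_cast h0
    have := hf.gen (ι := Fin n × Bool)
      (fun p q => A p.1 q.1 + if p.2 && q.2 then 1 else 0)
      (fun p q => by simp only [hsymm p.1 q.1, Bool.and_comm])
      (fun x => by
        have h1 := hA.2 (fun i => x (i, true) + x (i, false))
        have h2 : (0 : ℝ) ≤ (∑ i, x (i, true)) ^ 2 := sq_nonneg _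
        have h3 : (∑ i : Fin n, x (i, true)) ^ 2 = ∑ i : Fin n, ∑ j : Fin n, x (i, true) * x (j, true) := by
          rw [sq, Finset.sum_mul_sum]
        rw [h3] at h2
        have h4 := add_nonneg h1 h2
        rw [← Finset.sum_add_distrib] at h4
        simp only [Fintype.sum_prod_type, Fintype.sum_bool]
        refine h4.trans_eq (Finset.sum_congr rfl fun i _ => ?_)
        rw [← Finset.sum_add_distrib, ← Finset.sum_add_distrib]
        refine Finset.sum_congr rfl fun j _ => ?_
        simp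
        ring)
      (fun p => if p.2 then u p.1 else -u p.1)
    simp only [Fintype.sum_prod_type, Fintype.sum_bool] at this
    refine this.trans_eq (Finset.sum_congr rfl fun i _ => ?_)
    rw [← Finset.sum_add_distrib]
    refine Finset.sum_congr rfl fun j _ => ?_
    simp [fwdDiff]
    ring

lemma Preserves.iter {f : ℤ → ℝ} (hf : Preserves f) (k : ℕ) : Preserves ((fwdDiff 1)^[k] f) := by
  induction k with
  | zero => exact hf
  | succ k ih => rw [Function.iterate_succ_apply']; exact ih.diff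

lemma Preserves.nonneg {f : ℤ → ℝ} (hf : Preserves f) (m : ℕ) : 0 ≤ f m := by
  have := hf.gen (ι := Unit) (fun _ _ => (m : ℤ)) (fun _ _ => rfl)
    (fun x => by simp; nlinarith [mul_nonneg (Nat.cast_nonneg (α := ℝ) m) (sq_nonneg (x ()))])
    (fun _ => 1)
  simpa using this

lemma Preserves.neg_le {f : ℤ → ℝ} (hf : Preserves f) (m : ℕ) : |f (-m)| ≤ f m := by
  have key : ∀ s : ℝ, 0 ≤ 2 * (1 + s ^ 2) * f m + 4 * s * f (-m) := by
    intro s
    have := hf.gen (ι := Bool × Bool)
      (fun p q => if p.1 = q.1 then (m : ℤ) else -m)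
      (fun p q => by simp only [eq_comm])
      (fun x => by
        simp only [Fintype.sum_prod_type, Fintype.sum_bool]
        simp
        nlinarith [mul_nonneg (Nat.cast_nonneg (α := ℝ) m)
          (sq_nonneg (x (true, true) + x (true, false) - x (false, true) - x (false, false)))])
      (fun p => if p.2 then (if p.1 then 1 else s) else 0)
    simp only [Fintype.sum_prod_type, Fintype.sum_bool] at this
    simp at this
    nlinarith
  have h1 := key 1
  have h2 := key (-1)
  rw [abs_le]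
  constructor <;> linarith

lemma Preserves.growth {f : ℤ → ℝ} (hf : Preserves f) (a n k : ℕ) :
    (n.choose k : ℝ) * (fwdDiff 1)^[k] f a ≤ f (a + n) := by
  have h1 := shift_eq_sum_fwdDiff_iter (1 : ℤ) f n (a : ℤ)
  have h2 : f (a + n) = ∑ j ∈ range (n + 1), (n.choose j : ℝ) * (fwdDiff 1)^[j] f a := by
    simpa [nsmul_eq_mul] using h1
  rw [h2]
  by_cases hk : k ∈ range (n + 1)
  · exact Finset.single_le_sum (f := fun j => (n.choose j : ℝ) * (fwdDiff 1)^[j] f a)
      (fun j _ => mul_nonneg (Nat.cast_nonneg _) ((hf.iter j).nonneg a)) hk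
  · have : n.choose k = 0 := Nat.choose_eq_zero_of_lt (by simpa using hk)
    rw [this, Nat.cast_zero, zero_mul]
    exact Finset.sum_nonneg fun j _ => mul_nonneg (Nat.cast_nonneg _) ((hf.iter j).nonneg a)

/-- A preserver which vanishes on the nonnegative integers vanishes. -/
lemma Preserves.eq_zero {f : ℤ → ℝ} (hf : Preserves f) (h : ∀ m : ℕ, f m = 0) (m : ℤ) :
    f m = 0 := by
  obtain ⟨n, rfl | rfl⟩ := m.eq_nat_or_neg
  · exact h n
  · have := hf.neg_le n
    rw [h n] at this
    exact abs_eq_zero.1 (le_antisymm this (abs_nonneg _))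

/-- Under polynomial growth the differences of high order vanish. -/
lemma Preserves.diff_eq_zero {f : ℤ → ℝ} (hf : Preserves f) (K : ℕ) (C : ℝ)
    (hC : ∀ m : ℕ, f m ≤ C * (m + 1) ^ K) (m : ℤ) : (fwdDiff 1)^[K + 1] f m = 0 := by
  apply (hf.iter (K + 1)).eq_zero
  intro a
  have h0 := (hf.iter (K + 1)).nonneg a
  set c : ℝ := (fwdDiff 1)^[K + 1] f a with hc
  by_contra hne
  have hcpos : 0 < c := lt_of_le_of_ne h0 (Ne.symm hne)
  have hC0 : 0 ≤ C := by
    have h1 := hC 0
    have h2 := hf.nonneg 0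
    simp at h1 h2
    linarith
  -- choose `t` large
  obtain ⟨t, ht⟩ := exists_nat_gt ((K + 1).factorial * C * 2 ^ K / c)
  have ht0 : (0 : ℝ) ≤ (K + 1).factorial * C * 2 ^ K / c := by positivity
  have ht1 : 1 ≤ t := by
    by_contra h
    have : t = 0 := by omega
    rw [this, Nat.cast_zero] at ht
    linarith
  set B : ℕ := a + K + 2 with hB
  set n : ℕ := K + t * B with hn
  have hg := hf.growth a n (K + 1)
  have hup := hC (a + n)
  push_cast at hup
  have hch : (t * B : ℝ) ^ (K + 1) ≤ (K + 1).factorial * (n.choose (K + 1) : ℝ) := by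
    have h1 : (n + 1 - (K + 1)) ^ (K + 1) ≤ n.descFactorial (K + 1) := Nat.pow_sub_le_descFactorial _ _
    have h2 : n + 1 - (K + 1) = t * B := by omega
    rw [h2, Nat.descFactorial_eq_factorial_mul_choose] at h1
    exact_mod_cast h1
  have hB1 : (a : ℝ) + n + 1 ≤ 2 * (t * B) := by
    have : a + n + 1 ≤ 2 * (t * B) := by
      have : B ≤ t * B := Nat.le_mul_of_pos_left _ ht1
      omega
    exact_mod_cast this
  have hBpos : (0 : ℝ) < t * B := by
    have : 0 < t * B := Nat.mul_pos ht1 (by omega)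
    exact_mod_cast this
  have hB2 : (1 : ℝ) ≤ B := by
    have : 1 ≤ B := by omega
    exact_mod_cast this
  have hchain : (t * B : ℝ) ^ (K + 1) * c ≤ (K + 1).factorial * C * 2 ^ K * (t * B : ℝ) ^ K := by
    calc (t * B : ℝ) ^ (K + 1) * c ≤ (K + 1).factorial * (n.choose (K + 1) : ℝ) * c := by gcongr
      _ = (K + 1).factorial * ((n.choose (K + 1) : ℝ) * c) := by ring
      _ ≤ (K + 1).factorial * (C * ((a : ℝ) + n + 1) ^ K) :=
          mul_le_mul_of_nonneg_left (hg.trans hup) (by positivity)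
      _ ≤ (K + 1).factorial * (C * (2 * (t * B)) ^ K) := by gcongr
      _ = _ := by rw [mul_pow]; ring
  have h3 : (t * B : ℝ) * c ≤ (K + 1).factorial * C * 2 ^ K := by
    have hp : (0 : ℝ) < (t * B : ℝ) ^ K := by positivity
    have : (t * B : ℝ) ^ K * ((t * B : ℝ) * c) ≤ (t * B : ℝ) ^ K * ((K + 1).factorial * C * 2 ^ K) := by
      calc _ = (t * B : ℝ) ^ (K + 1) * c := by ring
        _ ≤ _ := hchain
        _ = _ := by ring
    exact le_of_mul_le_mul_left this hp
  rw [div_lt_iff₀ hcpos] at ht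
  have h4 : (t : ℝ) * c ≤ (t * B : ℝ) * c := by
    have : (t : ℝ) ≤ t * B := le_mul_of_one_le_right (Nat.cast_nonneg _) hB2
    gcongr
  linarith

/-- differences along the integers of a function on the reals -/
lemma iter_cast (n : ℕ) (F : ℝ → ℝ) :
    (fwdDiff 1)^[n] (fun m : ℤ => F m) = fun m : ℤ => (fwdDiff 1)^[n] F (m : ℝ) := by
  induction n generalizing F with
  | zero => rfl
  | succ n ih =>
    rw [Function.iterate_succ_apply, Function.iterate_succ_apply]
    have : fwdDiff 1 (fun m : ℤ => F m) = fun m : ℤ => (fwdDiff 1 F) (m : ℝ) := by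
      funext m
      simp [fwdDiff]
    rw [this, ih]

/-- A function on the integers whose `n`-th differences vanish and which vanishes at
`0, …, n - 1` vanishes. -/
lemma eq_zero_of_diff (n : ℕ) (g : ℤ → ℝ) (h : ∀ m, (fwdDiff 1)^[n] g m = 0)
    (h0 : ∀ i : ℕ, i < n → g i = 0) (m : ℤ) : g m = 0 := by
  induction n generalizing g m with
  | zero => exact h m
  | succ n ih =>
    have h1 : ∀ m, fwdDiff 1 g m = 0 := by
      intro m
      apply ih (fwdDiff 1 g)
      · intro m
        have := h m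
        rwa [Function.iterate_succ_apply] at this
      · intro i hi
        have a1 := h0 i (by omega)
        have a2 := h0 (i + 1) (by omega)
        simp only [fwdDiff]
        push_cast at a2
        rw [a1, a2, sub_zero]
    have h2 : ∀ m : ℤ, g (m + 1) = g m := fun m => by
      have := h1 m
      simp only [fwdDiff] at this
      linarith
    have h3 : g 0 = 0 := by
      have := h0 0 (by omega)
      simpa using this
    induction m using Int.induction_on with
    | zero => exact h3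
    | succ i hi => rw [h2, hi]
    | pred i hi =>
      have := h2 (-(i : ℤ) - 1)
      rw [sub_add_cancel] at this
      rw [← this, hi]

lemma exists_poly {f : ℤ → ℝ} (K : ℕ) (h : ∀ m, (fwdDiff 1)^[K + 1] f m = 0) :
    ∃ P : Polynomial ℝ, P.natDegree < K + 1 ∧ ∀ m : ℤ, f m = P.eval (m : ℝ) := by
  set P : Polynomial ℝ :=
    Lagrange.interpolate (range (K + 1)) (fun i : ℕ => (i : ℝ)) (fun i : ℕ => f i) with hP
  have hinj : Set.InjOn (fun i : ℕ => (i : ℝ)) (range (K + 1) : Finset ℕ) :=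
    fun _ _ _ _ h => Nat.cast_injective h
  have hdeg : P.natDegree < K + 1 := by
    have h1 := Lagrange.degree_interpolate_lt (fun i : ℕ => f i) hinj
    rw [card_range] at h1
    rcases eq_or_ne P 0 with h0 | h0
    · rw [h0]; simp
    · exact (Polynomial.natDegree_lt_iff_degree_lt h0).2 h1
  refine ⟨P, hdeg, fun m => ?_⟩
  have hdP : ∀ m : ℤ, (fwdDiff 1)^[K + 1] (fun m : ℤ => P.eval (m : ℝ)) m = 0 := by
    intro m
    rw [iter_cast (K + 1) (fun x => P.eval x)]
    have := Polynomial.fwdDiff_iter_eq_zero_of_degree_lt hdeg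
    have h2 := congrFun this (m : ℝ)
    simpa using h2
  have hsub : ∀ m : ℤ, (fwdDiff 1)^[K + 1] (f + (-1 : ℝ) • fun m : ℤ => P.eval (m : ℝ)) m = 0 := by
    intro m
    rw [fwdDiff_iter_add, fwdDiff_iter_const_smul]
    show (fwdDiff 1)^[K + 1] f m +
      (-1 : ℝ) * (fwdDiff 1)^[K + 1] (fun m : ℤ => P.eval (m : ℝ)) m = 0
    rw [h m, hdP m]
    simp
  have := eq_zero_of_diff (K + 1) _ hsub (fun i hi => by
    have := Lagrange.eval_interpolate_at_node (fun i : ℕ => f i) hinj (mem_range.2 hi)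
    simp only [Pi.add_apply, Pi.smul_apply, smul_eq_mul, Int.cast_natCast]
    rw [← hP] at this
    rw [this]; ring) m
  simp only [Pi.add_apply, Pi.smul_apply, smul_eq_mul] at this
  linarith

lemma coeff_nonneg {f : ℤ → ℝ} (hf : Preserves f) (K : ℕ) (c : ℕ → ℝ)
    (h : ∀ m : ℤ, f m = ∑ j ∈ range (K + 1), c j * (m : ℝ) ^ j) (k : ℕ) (hk : k ≤ K) :
    0 ≤ c k := by
  classical
  set V : Matrix (Fin (K + 1)) (Fin (K + 1)) ℝ := Matrix.vandermonde fun i => ((i : ℕ) : ℝ) with hV
  have hdet : IsUnit V.det := by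
    rw [isUnit_iff_ne_zero, hV, Matrix.det_vandermonde_ne_zero_iff]
    intro i j hij
    exact Fin.ext (Nat.cast_injective hij)
  set w : Fin (K + 1) → ℝ := Matrix.vecMul (Pi.single ⟨k, by omega⟩ 1) V⁻¹ with hw
  have hwV : Matrix.vecMul w V = Pi.single ⟨k, by omega⟩ 1 := by
    rw [hw, Matrix.vecMul_vecMul, Matrix.nonsing_inv_mul _ hdet, Matrix.vecMul_one]
  have hsum : ∀ j ∈ range (K + 1), ∑ i, w i * ((i : ℕ) : ℝ) ^ j = if j = k then 1 else 0 := by
    intro j hj
    have h1 := congrFun hwV ⟨j, mem_range.1 hj⟩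
    simp only [Matrix.vecMul, dotProduct, hV, Matrix.vandermonde_apply] at h1
    rw [h1, Pi.single_apply]
    simp
  have hq := hf.gen (fun i j : Fin (K + 1) => ((i : ℕ) : ℤ) * ((j : ℕ) : ℤ))
    (fun i j => mul_comm _ _) (fun x => by
      have : (0 : ℝ) ≤ (∑ i : Fin (K + 1), x i * ((i : ℕ) : ℝ)) ^ 2 := sq_nonneg _
      rw [sq, Finset.sum_mul_sum] at this
      refine this.trans_eq (Finset.sum_congr rfl fun i _ => Finset.sum_congr rfl fun j _ => ?_)
      push_cast
      ring) w
  have hexp : ∑ i : Fin (K + 1), ∑ j : Fin (K + 1),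
      w i * f (((i : ℕ) : ℤ) * ((j : ℕ) : ℤ)) * w j =
      ∑ l ∈ range (K + 1), c l * (∑ i : Fin (K + 1), w i * ((i : ℕ) : ℝ) ^ l) ^ 2 := by
    have e1 : ∀ i j : Fin (K + 1), w i * f (((i : ℕ) : ℤ) * ((j : ℕ) : ℤ)) * w j =
        ∑ l ∈ range (K + 1), c l * ((w i * ((i : ℕ) : ℝ) ^ l) * (w j * ((j : ℕ) : ℝ) ^ l)) := by
      intro i j
      rw [h, Finset.mul_sum, Finset.sum_mul]
      refine Finset.sum_congr rfl fun l _ => ?_
      push_cast
      rw [mul_pow]
      ring
    simp_rw [e1]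
    simp_rw [Finset.sum_comm (s := (Finset.univ : Finset (Fin (K + 1)))) (t := range (K + 1))]
    refine Finset.sum_congr rfl fun l _ => ?_
    rw [sq, Finset.sum_mul_sum, Finset.mul_sum]
    refine Finset.sum_congr rfl fun i _ => ?_
    rw [Finset.mul_sum]
  rw [hexp, Finset.sum_congr rfl (fun l hl => by rw [hsum l hl])] at hq
  simpa [Finset.sum_ite_eq', hk, Nat.lt_succ_iff] using hq

/-- Preservers on integer matrices: the forward differences of a preserver are preservers, hence
nonnegative on `ℕ`, and `|f (-m)| ≤ f m`; and a preserver of polynomial growth is a polynomial with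
nonnegative coefficients. -/
theorem result (f : ℤ → ℝ) (hf : Preserves f) :
    (∀ k, Preserves ((fwdDiff 1)^[k] f)) ∧ (∀ k a : ℕ, 0 ≤ (fwdDiff 1)^[k] f a) ∧
    (∀ m : ℕ, |f (-m)| ≤ f m) ∧
    ∀ (K : ℕ) (C : ℝ), (∀ m : ℕ, f m ≤ C * (m + 1) ^ K) →
      ∃ c : ℕ → ℝ, (∀ k, 0 ≤ c k) ∧ ∀ m : ℤ, f m = ∑ k ∈ range (K + 1), c k * (m : ℝ) ^ k := by
  refine ⟨hf.iter, fun k a => (hf.iter k).nonneg a, hf.neg_le, fun K C hC => ?_⟩
  obtain ⟨P, hdeg, hP⟩ := exists_poly K (hf.diff_eq_zero K C hC)
  have hev : ∀ m : ℤ, f m = ∑ j ∈ range (K + 1), P.coeff j * (m : ℝ) ^ j := fun m => by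
    rw [hP m, Polynomial.eval_eq_sum_range' hdeg]
  refine ⟨fun k => P.coeff k, fun k => ?_, hev⟩
  by_cases hk : k ≤ K
  · exact coeff_nonneg hf K _ hev k hk
  · show 0 ≤ P.coeff k
    rw [Polynomial.coeff_eq_zero_of_natDegree_lt (by omega)]

end Pool.Agent.Results.MP_6cd9e0_an.PolynomialGrowth
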